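import Pool.Agent.helper68.AM.SpecY

set_option autoImplicit false

namespace AM

open Pool.Agent.helper72.Sq Matrix

lemma XW5_id (A B : SpecialLinearGroup (Fin 2) ℝ) :
    tr (A ^ 6 * B ^ 2) =
      (2 - tr (A * B * A⁻¹ * B⁻¹)) * (tr A ^ 2 - 1) ^ 2 + tr (A ^ 3 * B) ^ 2 - 2 := by
  have hv2 : tr (A ^ 2 * B) = tr A * tr (A * B) - tr B := by
    rw [pow_two, mul_assoc]; exact tr_mul_mul A B
  have hv : tr (A ^ 3 * B) = tr A * tr (A ^ 2 * B) - tr (A * B) := by
    have h := tr_mul_mul A (A * B)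
    have e2 : A * (A * B) = A ^ 2 * B := by rw [← mul_assoc, ← pow_two]
    have e1 : A * (A * (A * B)) = A ^ 3 * B := by
      rw [e2, ← mul_assoc, ← pow_succ']
    rw [e1, e2] at h
    exact h
  have h0 : tr (B ^ 2) = tr B ^ 2 - 2 := by
    have h := tr_mul_mul B 1
    rw [mul_one] at h
    have h1 : tr (1 : SpecialLinearGroup (Fin 2) ℝ) = 2 := by
      unfold tr; simp; norm_num
    rw [pow_two, h, h1]; ring
  have h1 : tr (A * B ^ 2) = tr B * tr (A * B) - tr A := by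
    have h := tr_mul_mul B A
    rw [tr_comm B A] at h
    rw [tr_comm, pow_two, mul_assoc, h]
  have h2 : tr (A ^ 2 * B ^ 2) = tr A * tr (A * B ^ 2) - tr (B ^ 2) := by
    have h := tr_mul_mul A (B ^ 2)
    rw [← h]; congr 1; rw [← mul_assoc, ← pow_two]
  have hs : ∀ n : ℕ, tr (A ^ (n + 2) * B ^ 2) =
      tr A * tr (A ^ (n + 1) * B ^ 2) - tr (A ^ n * B ^ 2) := by
    intro n
    have h := tr_mul_mul A (A ^ n * B ^ 2)
    have e2 : A * (A ^ n * B ^ 2) = A ^ (n + 1) * B ^ 2 := by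
      rw [← mul_assoc, ← pow_succ']
    have e1 : A * (A * (A ^ n * B ^ 2)) = A ^ (n + 2) * B ^ 2 := by
      rw [e2, ← mul_assoc, ← pow_succ']
    rw [e1, e2] at h
    exact h
  have h3 := hs 1
  have h4 := hs 2
  have h5 := hs 3
  have h6 := hs 4
  norm_num at h3 h4 h5 h6
  rw [h6, h5, h4, h3, h2, h1, h0, hv, hv2, tr_commutator]
  ring

lemma XW5_gl (ρ : F2 →* SpecialLinearGroup (Fin 2) ℝ) (g : F2) (h : 2 ≤ tr (ρ g)) :
    gLen ρ g = len (tr (ρ g)) := by
  unfold gLen len; rw [abs_of_pos (by linarith)]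

lemma XW5_len {x v T c : ℝ} (hx : 2 ≤ x) (hv : 2 ≤ v) (hc : 1 ≤ c) (h1 : v ^ 2 + x ^ 4 ≤ T)
    (h2 : T ≤ v ^ 2 + c * x ^ 4) :
    |len T - 2 * max (2 * len x) (len v)| ≤ 2 * Real.log (1 + c) + 8 * Real.log 2 := by
  have hT : 2 ≤ T := by nlinarith [sq_nonneg (x ^ 2)]
  have a1 := len_le_two_log hT
  have a2 := two_log_le_len hT
  have a3 := len_le_two_log hx
  have a4 := two_log_le_len hx
  have a5 := len_le_two_log hv
  have a6 := two_log_le_len hv
  have hx0 : 0 < x := by linarith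
  have hv0 : 0 < v := by linarith
  have hT0 : 0 < T := by linarith
  rw [Real.log_div (by positivity) (by norm_num)] at a2 a4 a6
  have b4 : 0 < Real.log 2 := Real.log_pos (by norm_num)
  have b3 : 0 ≤ Real.log (1 + c) := Real.log_nonneg (by linarith)
  have c1 : 4 * Real.log x ≤ Real.log T := by
    have h : x ^ 4 ≤ T := by nlinarith [sq_nonneg v]
    have := Real.log_le_log (by positivity) h
    rw [Real.log_pow] at this
    push_cast at this
    linarith
  have c2 : 2 * Real.log v ≤ Real.log T := by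
    have h : v ^ 2 ≤ T := by nlinarith [sq_nonneg (x ^ 2)]
    have := Real.log_le_log (by positivity) h
    rw [Real.log_pow] at this
    push_cast at this
    linarith
  have m1 := le_max_left (2 * len x) (len v)
  have m2 := le_max_right (2 * len x) (len v)
  rw [abs_le]
  constructor
  · have : max (2 * len x) (len v) ≤ Real.log T := by
      apply max_le
      · linarith
      · linarith
    linarith
  · rcases le_total (x ^ 2) v with hxv | hxv
    · have h : T ≤ (1 + c) * v ^ 2 := by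
        have : x ^ 4 ≤ v ^ 2 := by nlinarith [sq_nonneg x]
        nlinarith
      have := Real.log_le_log hT0 h
      rw [Real.log_mul (by positivity) (by positivity), Real.log_pow] at this
      push_cast at this
      linarith
    · have h : T ≤ (1 + c) * x ^ 4 := by
        have : v ^ 2 ≤ x ^ 4 := by nlinarith [sq_nonneg x]
        nlinarith
      have := Real.log_le_log hT0 h
      rw [Real.log_mul (by positivity) (by positivity), Real.log_pow] at this
      push_cast at this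
      linarith

theorem XW5 (hXE : XE_stmt) : XW5_stmt := by
  intro ρ hA
  have hk : 0 < kap (trTri ρ (ga, gb)) := hA.kpos
  refine ⟨2 * Real.log (1 + (4 + kap (trTri ρ (ga, gb)))) + 8 * Real.log 2, ?_⟩
  intro φ hφ
  obtain ⟨hx, -, -, -, hτ⟩ := hXE ρ hA φ hφ
  have htA : twA ∈ MCG := Subgroup.subset_closure (by simp)
  have hv : 2 < tr (ρ (φ (ga ^ 3 * gb))) := by
    have h := (hXE ρ hA (φ * (twA * (twA * twA)))
      (MCG.mul_mem hφ (MCG.mul_mem htA (MCG.mul_mem htA htA)))).2.1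
    have e : (φ * (twA * (twA * twA))) gb = φ (ga ^ 3 * gb) := by
      rw [MulAut.mul_apply, MulAut.mul_apply, MulAut.mul_apply, twA_b, map_mul twA, twA_a, twA_b,
        map_mul twA, map_mul twA, twA_a, twA_b]
      congr 1
    rwa [e] at h
  have hT := XW5_id (ρ (φ ga)) (ρ (φ gb))
  rw [hτ] at hT
  have e1 : ρ (φ ga) ^ 6 * ρ (φ gb) ^ 2 = ρ (φ (ga ^ 6 * gb ^ 2)) := by
    simp only [map_mul, map_pow]
  have e2 : ρ (φ ga) ^ 3 * ρ (φ gb) = ρ (φ (ga ^ 3 * gb)) := by
    simp only [map_mul, map_pow]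
  rw [e1, e2] at hT
  set x := tr (ρ (φ ga)) with hxd
  set v := tr (ρ (φ (ga ^ 3 * gb))) with hvd
  set K := kap (trTri ρ (ga, gb)) with hK
  have hx2 : 4 ≤ x ^ 2 := by nlinarith
  have g1 : v ^ 2 + x ^ 4 ≤ tr (ρ (φ (ga ^ 6 * gb ^ 2))) := by
    rw [hT]
    have i1 : x ^ 4 + 2 ≤ 4 * (x ^ 2 - 1) ^ 2 := by nlinarith
    have i2 : 0 ≤ K * (x ^ 2 - 1) ^ 2 := by positivity
    nlinarith
  have g2 : tr (ρ (φ (ga ^ 6 * gb ^ 2))) ≤ v ^ 2 + (4 + K) * x ^ 4 := by
    rw [hT]
    have i1 : (x ^ 2 - 1) ^ 2 ≤ x ^ 4 := by nlinarith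
    have i2 := mul_le_mul_of_nonneg_left i1 (by linarith : (0 : ℝ) ≤ 4 + K)
    nlinarith
  have hT2 : 2 ≤ tr (ρ (φ (ga ^ 6 * gb ^ 2))) := by
    nlinarith [sq_nonneg (x ^ 2)]
  rw [XW5_gl ρ _ hT2, XW5_gl ρ (φ ga) hx.le, XW5_gl ρ (φ (ga ^ 3 * gb)) hv.le]
  rw [← hxd, ← hvd]
  exact XW5_len hx.le hv.le (by linarith) g1 g2

end AM
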